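import Pool.Agent.Work.MP_dcf6a6_c1.Interface

/-!
# Block TONE: one exponent is one
-/

open Polynomial

namespace Pool.C1.helper94

noncomputable section

theorem tone_aux (κ₁ κ₂ : ℂ) (y : ℕ) (hy : 0 < y) (h2 : κ₂ ≠ 0) :
    ∃ s : ℂ, s ≠ 0 ∧ κ₁ + κ₂ * s ^ y ≠ 0 := by
  by_cases h : κ₁ + κ₂ = 0
  · refine ⟨2, two_ne_zero, fun h0 => ?_⟩
    have h3 : κ₂ * (2 ^ y - 1) = 0 := by
      have : κ₂ * (2 ^ y - 1) = (κ₁ + κ₂ * 2 ^ y) - (κ₁ + κ₂) := by ring
      rw [this, h0, h, sub_zero]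
    have h4 : (2 : ℂ) ^ y = 1 := by
      have := (mul_eq_zero.1 h3).resolve_left h2
      linear_combination this
    have h5 : (2 : ℕ) ^ y = 1 := by exact_mod_cast h4
    have h6 : 1 < 2 ^ y := Nat.one_lt_two_pow (by omega)
    omega
  · exact ⟨1, one_ne_zero, by rwa [one_pow, mul_one]⟩

theorem stmt_TONE : Stmt_TONE := by
  intro x y κ hx hy hκ
  obtain ⟨s, hs, hs'⟩ := tone_aux (κ 1) (κ 2) y hy (hκ 2)
  set t1 : ℂ[X] := X ^ y with ht1
  set t2 : ℂ[X] := C s * (X - C 1) ^ x with ht2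
  set t0 : ℂ[X] := C (-(κ 0)⁻¹) * (C (κ 1) * t1 ^ x + C (κ 2) * t2 ^ y) with ht0
  have hc12 : IsCoprime t1 t2 := by
    have h1 : IsCoprime (X : ℂ[X]) (X - C 1) := ⟨1, -1, by simp⟩
    have h2 : IsUnit (C s : ℂ[X]) := by
      rw [isUnit_C]; exact isUnit_iff_ne_zero.2 hs
    rw [ht1, ht2]
    exact (isCoprime_mul_unit_left_right h2 _ _).2 h1.pow
  have hlin : ∀ a : ℂ, a ≠ 0 → IsUnit (C a : ℂ[X]) := fun a ha => by
    rw [isUnit_C]; exact isUnit_iff_ne_zero.2 ha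
  have hinv : -(κ 0)⁻¹ ≠ 0 := neg_ne_zero.2 (inv_ne_zero (hκ 0))
  have hd1 : (t1 ^ x).natDegree = x * y := by
    rw [ht1, ← pow_mul, natDegree_X_pow, mul_comm]
  have hd2 : t2.natDegree = x := by
    rw [ht2, natDegree_C_mul hs, natDegree_pow, natDegree_X_sub_C, mul_one]
  have hn1 : t1 ≠ 0 := pow_ne_zero _ X_ne_zero
  have hn2 : t2 ≠ 0 := mul_ne_zero (by simpa using hs) (pow_ne_zero _ (X_sub_C_ne_zero 1))
  have hco : t0.coeff (x * y) ≠ 0 := by
    have e1 : (t1 ^ x).coeff (x * y) = 1 := by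
      rw [ht1, ← pow_mul, mul_comm y x, coeff_X_pow, if_pos rfl]
    have e2 : (t2 ^ y).coeff (x * y) = s ^ y := by
      have h3 : (t2 ^ y).natDegree = x * y := by
        rw [natDegree_pow, hd2, mul_comm]
      rw [← h3, coeff_natDegree, leadingCoeff_pow, ht2, leadingCoeff_mul, leadingCoeff_C,
        leadingCoeff_pow, leadingCoeff_X_sub_C, one_pow, mul_one]
    rw [ht0, coeff_C_mul, coeff_add, coeff_C_mul, coeff_C_mul, e1, e2, mul_one]
    exact mul_ne_zero hinv hs'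
  have hle : t0.natDegree ≤ x * y := by
    rw [ht0]
    refine (natDegree_C_mul_le _ _).trans ((natDegree_add_le _ _).trans (max_le ?_ ?_))
    · exact (natDegree_C_mul_le _ _).trans hd1.le
    · refine (natDegree_C_mul_le _ _).trans ?_
      rw [natDegree_pow, hd2, mul_comm]
  have hd0 : t0.natDegree = x * y := le_antisymm hle (le_natDegree_of_ne_zero hco)
  have hn0 : t0 ≠ 0 := fun h => hco (by rw [h, coeff_zero])
  have hc01 : IsCoprime t0 t1 := by
    rw [ht0]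
    refine (isCoprime_mul_unit_left_left (hlin _ hinv) _ _).2 ?_
    have h1 : C (κ 1) * t1 ^ x + C (κ 2) * t2 ^ y =
        C (κ 2) * t2 ^ y + t1 * (C (κ 1) * t1 ^ (x - 1)) := by
      obtain ⟨k, rfl⟩ : ∃ k, x = k + 1 := ⟨x - 1, by omega⟩
      rw [Nat.add_sub_cancel]
      ring
    rw [h1]
    refine IsCoprime.add_mul_left_left ?_ _
    exact (isCoprime_mul_unit_left_left (hlin _ (hκ 2)) _ _).2 hc12.symm.pow_left
  have hc02 : IsCoprime t0 t2 := by
    rw [ht0]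
    refine (isCoprime_mul_unit_left_left (hlin _ hinv) _ _).2 ?_
    have h1 : C (κ 1) * t1 ^ x + C (κ 2) * t2 ^ y =
        C (κ 1) * t1 ^ x + t2 * (C (κ 2) * t2 ^ (y - 1)) := by
      obtain ⟨k, rfl⟩ : ∃ k, y = k + 1 := ⟨y - 1, by omega⟩
      rw [Nat.add_sub_cancel]
      ring
    rw [h1]
    refine IsCoprime.add_mul_left_left ?_ _
    exact (isCoprime_mul_unit_left_left (hlin _ (hκ 1)) _ _).2 hc12.pow_left
  refine ⟨x * y, ![x * y, y, x], ![t0, t1, t2], Nat.mul_pos hx hy, ?_, ?_, ?_, ?_, ?_⟩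
  · intro i
    fin_cases i
    · simp
    · rfl
    · simp [mul_comm]
  · intro i
    fin_cases i
    · exact ⟨hn0, hd0⟩
    · exact ⟨hn1, by simp [ht1]⟩
    · exact ⟨hn2, hd2⟩
  · intro i j hij
    fin_cases i <;> fin_cases j
    · exact absurd rfl hij
    · exact hc01
    · exact hc02
    · exact hc01.symm
    · exact absurd rfl hij
    · exact hc12
    · exact hc02.symm
    · exact hc12.symm
    · exact absurd rfl hij
  · rw [Fin.sum_univ_three]
    simp only [Matrix.cons_val_zero, Matrix.cons_val_one, Matrix.cons_val, pow_one]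
    have h1 : (C (κ 0) : ℂ[X]) * t0 = -(C (κ 1) * t1 ^ x + C (κ 2) * t2 ^ y) := by
      rw [ht0, ← mul_assoc, ← C_mul, mul_neg, mul_inv_cancel₀ (hκ 0)]
      simp
    rw [h1]
    ring
  · intro P hP
    refine ⟨![C (κ 0)⁻¹ * P, 0, 0], ?_, ?_⟩
    · intro i
      fin_cases i
      · exact (natDegree_C_mul_le _ _).trans hP
      · exact Nat.zero_le _
      · exact Nat.zero_le _
    · rw [Fin.sum_univ_three]
      simp only [Matrix.cons_val_zero, Matrix.cons_val_one, Matrix.cons_val, Nat.cast_one,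
        mul_one, mul_zero, add_zero, Nat.sub_self, pow_zero]
      rw [← mul_assoc, ← C_mul, mul_inv_cancel₀ (hκ 0), C_1, one_mul]

end

end Pool.C1.helper94
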